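import Pool.Agent.Lib.MP_b1a3a4_al.MVS.Core

/-!
# Project MVS, part II: the definitions used in the final statement

The homotopical invariant `Σ²` in terms of the Cayley complex of a finite presentation.
-/

set_option linter.all false

namespace Pool.Agent.Lib.MP_b1a3a4_al.MVS.HO

/-- The value in `G` of a word in the letters `x_i^{±1}`. -/
def wval {G : Type} [Group G] {r : ℕ} (φ : FreeGroup (Fin r) →* G) (w : List (Fin r × Bool)) : G :=
  φ (FreeGroup.mk w)

/-- All vertices of the edge path of the Cayley graph with label `w` which starts at `g` lie in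
`Z`. -/
def PathIn {G : Type} [Group G] {r : ℕ} (φ : FreeGroup (Fin r) →* G) (Z : Set G) (g : G)
    (w : List (Fin r × Bool)) : Prop :=
  ∀ u, u <+: w → g * wval φ u ∈ Z

/-- Elementary homotopies of edge paths starting at `g` in the full subcomplex of the Cayley complex
of the presentation `⟨x_1, …, x_r | R⟩` with vertex set `Z`. -/
inductive Elem {G : Type} [Group G] {r : ℕ} (φ : FreeGroup (Fin r) →* G)
    (R : Set (FreeGroup (Fin r))) (Z : Set G) (g : G) :
    List (Fin r × Bool) → List (Fin r × Bool) → Prop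
  | back (u v : List (Fin r × Bool)) (x : Fin r × Bool) :
      PathIn φ Z g (u ++ [x, (x.1, !x.2)] ++ v) → Elem φ R Z g (u ++ [x, (x.1, !x.2)] ++ v) (u ++ v)
  | cell (u v : List (Fin r × Bool)) (ρ : FreeGroup (Fin r)) : ρ ∈ R →
      PathIn φ Z g (u ++ ρ.toWord ++ v) → Elem φ R Z g (u ++ ρ.toWord ++ v) (u ++ v)

/-- Homotopy of edge paths with fixed end points. -/
def Homotopic {G : Type} [Group G] {r : ℕ} (φ : FreeGroup (Fin r) →* G)
    (R : Set (FreeGroup (Fin r))) (Z : Set G) (g : G) :
    List (Fin r × Bool) → List (Fin r × Bool) → Prop :=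
  Relation.EqvGen (Elem φ R Z g)

/-- `{χ ≥ t}` -/
def above {G : Type} [Group G] (χ : G →* Multiplicative ℝ) (t : ℝ) : Set G :=
  {g | t ≤ Multiplicative.toAdd (χ g)}

/-- `[χ] ∈ Σ²(G)` (homotopical): for every finite presentation of `G` the filtration of its Cayley
complex by the full subcomplexes `{χ ≥ t}` is essentially `1`-connected. -/
def InSigma2 {G : Type} [Group G] (χ : G →* Multiplicative ℝ) : Prop :=
  ∀ (r : ℕ) (φ : FreeGroup (Fin r) →* G) (R : Set (FreeGroup (Fin r))),
    Function.Surjective φ → R.Finite → φ.ker = Subgroup.normalClosure R →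
    ∃ D : ℝ, ∀ t : ℝ,
      (∀ g h, g ∈ above χ t → h ∈ above χ t →
        ∃ w, g * wval φ w = h ∧ PathIn φ (above χ (t - D)) g w) ∧
      ∀ g w, wval φ w = 1 → PathIn φ (above χ t) g w → Homotopic φ R (above χ (t - D)) g w []

end Pool.Agent.Lib.MP_b1a3a4_al.MVS.HO
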