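import Pool.Agent.Lib.MP_b1a3a4_al.MVS.Interfaces

/-!
# Project MVS, part II (homotopical `Σ²`): definitions and basic facts

Cocycles on subsets of a group with values in arbitrary groups, edge paths, holonomy.
-/

set_option linter.all false

namespace Pool.Agent.Lib.MP_b1a3a4_al.MVS.HO

/-! ## Cocycles -/

/-- `c` is an `E`-cocycle on `Z ⊆ G` with values in `H`: a cocycle on the complex with vertex set `Z`
whose simplices are the sets with all differences `g⁻¹h` in `E`. -/
def Cocyc {G H : Type} [Group G] [Group H] (E Z : Set G) (c : G → G → H) : Prop :=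
  ∀ g ∈ Z, ∀ h ∈ Z, ∀ k ∈ Z, g⁻¹ * h ∈ E → h⁻¹ * k ∈ E → g⁻¹ * k ∈ E → c g h * c h k = c g k

/-- `c` is a coboundary on the edges of `Z` with difference in `E`. -/
def Cob {G H : Type} [Group G] [Group H] (E Z : Set G) (c : G → G → H) : Prop :=
  ∃ f : G → H, ∀ g ∈ Z, ∀ h ∈ Z, g⁻¹ * h ∈ E → c g h = (f g)⁻¹ * f h

/-- coarsely simply connected (on every coarse component) -/
def CSC {G : Type} [Group G] (Z : Set G) : Prop :=
  ∀ E : Set G, E.Finite → ∃ E' : Set G, E'.Finite ∧
    ∀ (H : Type) [Group H] (c : G → G → H), Cocyc E' Z c → Cob E Z c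

/-- joined by an `E`-path in `Z` -/
def Conn {G : Type} [Group G] (E Z : Set G) : G → G → Prop :=
  Relation.ReflTransGen (fun a b => a ∈ Z ∧ b ∈ Z ∧ a⁻¹ * b ∈ E)

/-- coarsely connected -/
def CC {G : Type} [Group G] (Z : Set G) : Prop :=
  ∃ E : Set G, E.Finite ∧ ∀ g ∈ Z, ∀ h ∈ Z, Conn E Z g h

/-- finitely presented, in the language of cocycles -/
def FPres (G : Type) [Group G] : Prop := CC (Set.univ : Set G) ∧ CSC (Set.univ : Set G)

/-- superlevel sets -/
def up {G : Type} (f : G → ℝ) (h : ℝ) : Set G := {x | h ≤ f x}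

/-- `[χ] ∈ Σ²(G)`, in the language of cocycles -/
def Sig2 {G : Type} [Group G] (χ : Chr G) : Prop := CC (up (val χ) 0) ∧ CSC (up (val χ) 0)

/-! ## Paths and holonomy -/

/-- the `E`-path with steps `w` starting at `g` stays in `Z` -/
def InPath {G : Type} [Group G] (E Z : Set G) : G → List G → Prop
  | g, [] => g ∈ Z
  | g, x :: w => g ∈ Z ∧ x ∈ E ∧ InPath E Z (g * x) w

/-- the holonomy of `c` along the path with steps `w` starting at `g` -/
def hol {G H : Type} [Group G] [Group H] (c : G → G → H) : G → List G → H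
  | _, [] => 1
  | g, x :: w => c g (g * x) * hol c (g * x) w

/-- the word of the reversed path -/
def rv {G : Type} [Group G] (w : List G) : List G := (w.map (fun x => x⁻¹)).reverse

/-- all `E`-cocycles on `Z` have the same holonomy along the paths `w` and `w'` from `g` -/
def SameHol {G : Type} [Group G] (E Z : Set G) (g : G) (w w' : List G) : Prop :=
  ∀ (H : Type) [Group H] (c : G → G → H), Cocyc E Z c → hol c g w = hol c g w'

/-- a scale `E` at which `G` is connected and simply connected -/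
structure GoodScale {G : Type} [Group G] (E : Set G) : Prop where
  fin : E.Finite
  one : (1 : G) ∈ E
  inv : ∀ e ∈ E, e⁻¹ ∈ E
  conn : ∀ g : G, ∃ w : List G, (∀ x ∈ w, x ∈ E) ∧ w.prod = g
  sc : ∀ (H : Type) [Group H] (c : G → G → H), Cocyc E Set.univ c → Cob E Set.univ c

/-- half-spaces in the direction of `χ` are `E`-connected and `E`-simply connected, with lag `D` -/
def HS {G : Type} [Group G] (χ : Chr G) (E : Set G) (D : ℝ) : Prop :=
  (∀ h : ℝ, ∀ u v : G, h + D ≤ val χ u → h + D ≤ val χ v → Conn E (up (val χ) h) u v) ∧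
  (∀ h : ℝ, ∀ (H : Type) [Group H] (c : G → G → H), Cocyc E (up (val χ) h) c →
    Cob E (up (val χ) (h + D)) c)

/-- push data in the direction of `χ` at scale `E` -/
def Pushes {G : Type} [Group G] (E : Set G) (χ : Chr G) : Prop :=
  ∃ (b : G) (wb : List G) (p : G → List G) (δ C : ℝ), 0 < δ ∧ 0 ≤ C ∧
    wb.prod = b ∧ InPath E (up (val χ) (-C)) 1 wb ∧
    (∀ x ∈ E, (p x).prod = b⁻¹ * x * b ∧ InPath E (up (val χ) (min 0 (val χ x) + δ)) b (p x)) ∧
    (∀ x ∈ E, ∀ y ∈ E, x * y ∈ E →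
      SameHol E (up (val χ) (min (min 0 (val χ x)) (val χ (x * y)) + δ)) b
        (p x ++ p y) (p (x * y))) ∧
    ∀ x ∈ E, SameHol E (up (val χ) (-C)) 1 (wb ++ p x) (x :: wb)

/-! ## Basic facts -/

section basic

variable {G H : Type} [Group G] [Group H] {E E' Z Z' : Set G} {c : G → G → H}

lemma mem_up {f : G → ℝ} {h : ℝ} {x : G} : x ∈ up f h ↔ h ≤ f x := Iff.rfl

lemma up_mono {f : G → ℝ} {h h' : ℝ} (hh : h ≤ h') : up f h' ⊆ up f h :=
  fun _ hx => le_trans hh hx

lemma Cocyc.mono (hc : Cocyc E Z c) (hE : E' ⊆ E) (hZ : Z' ⊆ Z) : Cocyc E' Z' c :=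
  fun g hg h hh k hk h1 h2 h3 => hc g (hZ hg) h (hZ hh) k (hZ hk) (hE h1) (hE h2) (hE h3)

lemma Cob.mono (hc : Cob E Z c) (hE : E' ⊆ E) (hZ : Z' ⊆ Z) : Cob E' Z' c := by
  obtain ⟨f, hf⟩ := hc
  exact ⟨f, fun g hg h hh h1 => hf g (hZ hg) h (hZ hh) (hE h1)⟩

lemma Cocyc.self (hc : Cocyc E Z c) (h1 : (1 : G) ∈ E) {g : G} (hg : g ∈ Z) : c g g = 1 := by
  have h := hc g hg g hg g hg (by simpa using h1) (by simpa using h1) (by simpa using h1)
  simpa using h

lemma Cocyc.symm (hc : Cocyc E Z c) (h1 : (1 : G) ∈ E) {g h : G} (hg : g ∈ Z) (hh : h ∈ Z)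
    (h2 : g⁻¹ * h ∈ E) (h3 : h⁻¹ * g ∈ E) : c h g = (c g h)⁻¹ := by
  have h := hc g hg h hh g hg h2 h3 (by simpa using h1)
  rw [hc.self h1 hg] at h
  exact (inv_eq_of_mul_eq_one_right h).symm

lemma Conn.mono {u v : G} (h : Conn E Z u v) (hE : E ⊆ E') (hZ : Z ⊆ Z') : Conn E' Z' u v := by
  induction h with
  | refl => exact Relation.ReflTransGen.refl
  | tail _ hab ih => exact Relation.ReflTransGen.tail ih ⟨hZ hab.1, hZ hab.2.1, hE hab.2.2⟩

lemma Conn.rfl' {u : G} : Conn E Z u u := Relation.ReflTransGen.refl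

lemma Conn.symm {u v : G} (hE : ∀ e ∈ E, e⁻¹ ∈ E) (h : Conn E Z u v) : Conn E Z v u := by
  induction h with
  | refl => exact Relation.ReflTransGen.refl
  | tail _ hbc ih =>
    refine Relation.ReflTransGen.head ⟨hbc.2.1, hbc.1, ?_⟩ ih
    have := hE _ hbc.2.2
    simpa using this

lemma Conn.trans {u v w : G} (h : Conn E Z u v) (h' : Conn E Z v w) : Conn E Z u w :=
  Relation.ReflTransGen.trans h h'

@[simp] lemma inPath_nil {g : G} : InPath E Z g [] ↔ g ∈ Z := Iff.rfl

@[simp] lemma inPath_cons {g x : G} {w : List G} :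
    InPath E Z g (x :: w) ↔ g ∈ Z ∧ x ∈ E ∧ InPath E Z (g * x) w := Iff.rfl

lemma InPath.start {g : G} {w : List G} (h : InPath E Z g w) : g ∈ Z := by
  cases w with
  | nil => exact h
  | cons x w => exact h.1

lemma inPath_append {g : G} {u v : List G} :
    InPath E Z g (u ++ v) ↔ InPath E Z g u ∧ InPath E Z (g * u.prod) v := by
  induction u generalizing g with
  | nil =>
    simp only [List.nil_append, inPath_nil, List.prod_nil, mul_one]
    exact ⟨fun h => ⟨h.start, h⟩, fun h => h.2⟩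
  | cons x u ih =>
    simp only [List.cons_append, inPath_cons, List.prod_cons, ih, mul_assoc]
    tauto

lemma InPath.end_mem {g : G} {w : List G} (h : InPath E Z g w) : g * w.prod ∈ Z := by
  have h' : InPath E Z g (w ++ []) := by simpa using h
  exact (inPath_append.1 h').2

lemma InPath.mono {g : G} {w : List G} (h : InPath E Z g w) (hE : E ⊆ E') (hZ : Z ⊆ Z') :
    InPath E' Z' g w := by
  induction w generalizing g with
  | nil => exact hZ h
  | cons x w ih => exact ⟨hZ h.1, hE h.2.1, ih h.2.2⟩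

lemma InPath.letters {g : G} {w : List G} (h : InPath E Z g w) : ∀ x ∈ w, x ∈ E := by
  induction w generalizing g with
  | nil => simp
  | cons x w ih =>
    intro y hy
    rcases List.mem_cons.1 hy with rfl | hy
    · exact h.2.1
    · exact ih h.2.2 y hy

/-- description by prefixes -/
lemma inPath_iff {g : G} {w : List G} :
    InPath E Z g w ↔ (∀ x ∈ w, x ∈ E) ∧ ∀ u, u <+: w → g * u.prod ∈ Z := by
  induction w generalizing g with
  | nil => simp
  | cons x w ih =>
    rw [inPath_cons, ih]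
    constructor
    · rintro ⟨h1, h2, h3, h4⟩
      refine ⟨by simpa using ⟨h2, h3⟩, fun u hu => ?_⟩
      rcases u with _ | ⟨y, u⟩
      · simpa using h1
      · obtain ⟨rfl, hu'⟩ := List.cons_prefix_cons.1 hu
        rw [List.prod_cons, ← mul_assoc]
        first
          | exact h4 u hu
          | exact h4 u (List.cons_prefix_cons.1 hu).2
    · rintro ⟨h1, h2⟩
      refine ⟨by simpa using h2 [] (List.nil_prefix), h1 x (by simp), fun y hy => h1 y (by simp [hy]),
        fun u hu => ?_⟩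
      have := h2 (x :: u) (List.cons_prefix_cons.2 ⟨rfl, hu⟩)
      rwa [List.prod_cons, ← mul_assoc] at this

lemma InPath.translate {g : G} {w : List G} (h : InPath E Z g w) (a : G)
    (hZ : ∀ x ∈ Z, a * x ∈ Z') : InPath E Z' (a * g) w := by
  induction w generalizing g with
  | nil => exact hZ g h
  | cons x w ih =>
    refine ⟨hZ g h.1, h.2.1, ?_⟩
    rw [mul_assoc]
    exact ih h.2.2

lemma conn_iff {g h : G} (hg : g ∈ Z) :
    Conn E Z g h ↔ ∃ w, InPath E Z g w ∧ g * w.prod = h := by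
  constructor
  · intro hc
    induction hc with
    | refl => exact ⟨[], hg, by simp⟩
    | @tail b c _ hbc ih =>
      obtain ⟨w, hw, hw'⟩ := ih
      refine ⟨w ++ [b⁻¹ * c], ?_, by simp [← mul_assoc, hw']⟩
      rw [inPath_append, hw']
      exact ⟨hw, hbc.1, hbc.2.2, by simpa using hbc.2.1⟩
  · rintro ⟨w, hw, rfl⟩
    clear hg
    induction w generalizing g with
    | nil => simpa using Conn.rfl'
    | cons x w ih =>
      have h1 := ih hw.2.2
      rw [List.prod_cons, ← mul_assoc]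
      exact Relation.ReflTransGen.head ⟨hw.1, hw.2.2.start, by simpa using hw.2.1⟩ h1

@[simp] lemma hol_nil {g : G} : hol c g [] = 1 := rfl

@[simp] lemma hol_cons {g x : G} {w : List G} :
    hol c g (x :: w) = c g (g * x) * hol c (g * x) w := rfl

lemma hol_append {g : G} {u v : List G} :
    hol c g (u ++ v) = hol c g u * hol c (g * u.prod) v := by
  induction u generalizing g with
  | nil => simp
  | cons x u ih => simp [ih, mul_assoc]

@[simp] lemma rv_nil : rv ([] : List G) = [] := rfl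

lemma rv_cons {x : G} {w : List G} : rv (x :: w) = rv w ++ [x⁻¹] := by simp [rv]

lemma rv_append {u w : List G} : rv (u ++ w) = rv w ++ rv u := by simp [rv]

@[simp] lemma rv_prod {w : List G} : (rv w).prod = w.prod⁻¹ := by
  induction w with
  | nil => simp
  | cons x w ih => rw [rv_cons, List.prod_append, ih]; simp

lemma InPath.rv {g : G} {w : List G} (hE : ∀ e ∈ E, e⁻¹ ∈ E) (h : InPath E Z g w) :
    InPath E Z (g * w.prod) (rv w) := by
  induction w generalizing g with
  | nil => simpa using h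
  | cons x w ih =>
    rw [rv_cons, inPath_append, List.prod_cons, ← mul_assoc]
    refine ⟨ih h.2.2, ?_, hE x h.2.1, ?_⟩
    · simpa using h.2.2.start
    · simpa using h.1

lemma hol_rv (hc : Cocyc E Z c) (h1 : (1 : G) ∈ E) (hE : ∀ e ∈ E, e⁻¹ ∈ E) {g : G} {w : List G}
    (h : InPath E Z g w) : hol c (g * w.prod) (rv w) = (hol c g w)⁻¹ := by
  induction w generalizing g with
  | nil => simp
  | cons x w ih =>
    rw [rv_cons, hol_append, List.prod_cons, ← mul_assoc, ih h.2.2]
    simp only [rv_prod, mul_inv_cancel_right, hol_cons, hol_nil, mul_one, mul_inv_rev]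
    congr 1
    have h2 : c (g * x) g = (c g (g * x))⁻¹ :=
      hc.symm h1 h.1 h.2.2.start (by simpa using h.2.1) (by simpa using hE x h.2.1)
    rw [← h2]

/-- the holonomy of a coboundary -/
lemma hol_cob {f : G → H} (hf : ∀ g ∈ Z, ∀ h ∈ Z, g⁻¹ * h ∈ E → c g h = (f g)⁻¹ * f h)
    {g : G} {w : List G} (h : InPath E Z g w) : hol c g w = (f g)⁻¹ * f (g * w.prod) := by
  induction w generalizing g with
  | nil => simp
  | cons x w ih =>
    rw [hol_cons, ih h.2.2, hf g h.1 (g * x) h.2.2.start (by simpa using h.2.1), List.prod_cons]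
    simp [mul_assoc]

lemma SameHol.rfl' {g : G} {w : List G} : SameHol E Z g w w := fun _ _ _ _ => rfl

lemma SameHol.symm {g : G} {w w' : List G} (h : SameHol E Z g w w') : SameHol E Z g w' w :=
  fun H _ c hc => (h H c hc).symm

lemma SameHol.trans {g : G} {w w' w'' : List G} (h : SameHol E Z g w w')
    (h' : SameHol E Z g w' w'') : SameHol E Z g w w'' :=
  fun H _ c hc => (h H c hc).trans (h' H c hc)

lemma SameHol.mono {g : G} {w w' : List G} (h : SameHol E Z g w w') (hE : E ⊆ E') (hZ : Z ⊆ Z') :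
    SameHol E' Z' g w w' :=
  fun H _ c hc => h H c (hc.mono hE hZ)

lemma hol_translate {g : G} {w : List G} (a : G) :
    hol (fun x y => c (a * x) (a * y)) g w = hol c (a * g) w := by
  induction w generalizing g with
  | nil => rfl
  | cons x w ih => simp only [hol_cons, ih, mul_assoc]

lemma Cocyc.translate (hc : Cocyc E Z c) (a : G) (hZ : ∀ x ∈ Z', a * x ∈ Z) :
    Cocyc E Z' (fun x y => c (a * x) (a * y)) := by
  intro g hg h hh k hk h1 h2 h3
  exact hc _ (hZ g hg) _ (hZ h hh) _ (hZ k hk) (by simpa [mul_assoc] using h1)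
    (by simpa [mul_assoc] using h2) (by simpa [mul_assoc] using h3)

lemma SameHol.translate {g : G} {w w' : List G} (h : SameHol E Z g w w') (a : G)
    (hZ : ∀ x ∈ Z, a * x ∈ Z') : SameHol E Z' (a * g) w w' := by
  intro H _ c hc
  have := h H _ (hc.translate a hZ)
  rwa [hol_translate, hol_translate] at this

/-- left multiplication of a set -/
lemma SameHol.append_left {g : G} {u w w' : List G} (h : SameHol E Z (g * u.prod) w w') :
    SameHol E Z g (u ++ w) (u ++ w') := by
  intro H _ c hc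
  rw [hol_append, hol_append, h H c hc]

lemma SameHol.append_right {g : G} {w w' v : List G} (h : SameHol E Z g w w')
    (hp : w.prod = w'.prod) : SameHol E Z g (w ++ v) (w' ++ v) := by
  intro H _ c hc
  rw [hol_append, hol_append, h H c hc, hp]

lemma SameHol.congr {g : G} {w w' v v' : List G} (h : SameHol E Z g w w')
    (hp : w.prod = w'.prod) (h' : SameHol E Z (g * w.prod) v v') :
    SameHol E Z g (w ++ v) (w' ++ v') :=
  (h.append_right hp).trans (by rw [hp] at h'; exact h'.append_left)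

/-- `w ++ rv w` has trivial holonomy -/
lemma sameHol_cancel {g : G} {w : List G} (h1 : (1 : G) ∈ E) (hE : ∀ e ∈ E, e⁻¹ ∈ E)
    (h : InPath E Z g w) : SameHol E Z g (w ++ rv w) [] := by
  intro H _ c hc
  rw [hol_append, hol_rv hc h1 hE h]
  simp

/-- paths with the same end points, when all cocycles are coboundaries -/
lemma sameHol_of_cob {g : G} {w w' : List G} {Z₁ : Set G}
    (hsc : ∀ (H : Type) [Group H] (c : G → G → H), Cocyc E Z c → Cob E Z₁ c)
    (h : InPath E Z₁ g w) (h' : InPath E Z₁ g w') (hp : w.prod = w'.prod) :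
    SameHol E Z g w w' := by
  intro H _ c hc
  obtain ⟨f, hf⟩ := hsc H c hc
  rw [hol_cob hf h, hol_cob hf h', hp]

lemma GoodScale.sameHol (hE : GoodScale E) {g : G} {w w' : List G} (h : ∀ x ∈ w, x ∈ E)
    (h' : ∀ x ∈ w', x ∈ E) (hp : w.prod = w'.prod) : SameHol E Set.univ g w w' :=
  sameHol_of_cob hE.sc (inPath_iff.2 ⟨h, fun _ _ => Set.mem_univ _⟩)
    (inPath_iff.2 ⟨h', fun _ _ => Set.mem_univ _⟩) hp

lemma HS.mono {χ : Chr G} {D D' : ℝ} (h : HS χ E D) (hD : D ≤ D') : HS χ E D' :=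
  ⟨fun t u v hu hv => h.1 t u v (by linarith) (by linarith),
    fun t H _ c hc => (h.2 t H c hc).mono le_rfl (up_mono (by linarith))⟩

/-- the function `c √(s² + M²)` is convex, with slopes in `[-c, c]` -/
lemma sqrt_lower {M : ℝ} (hM : 0 < M) (s τ : ℝ) :
    Real.sqrt (s ^ 2 + M ^ 2) + s / Real.sqrt (s ^ 2 + M ^ 2) * τ ≤
      Real.sqrt ((s + τ) ^ 2 + M ^ 2) := by
  have hA : 0 < Real.sqrt (s ^ 2 + M ^ 2) := Real.sqrt_pos.2 (by positivity)
  set A := Real.sqrt (s ^ 2 + M ^ 2) with hAdef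
  have hA2 : A ^ 2 = s ^ 2 + M ^ 2 := Real.sq_sqrt (by positivity)
  apply Real.le_sqrt_of_sq_le
  have h1 : (A + s / A * τ) ^ 2 = A ^ 2 + 2 * s * τ + s ^ 2 * τ ^ 2 / A ^ 2 := by
    field_simp
    ring
  rw [h1]
  have h2 : s ^ 2 * τ ^ 2 / A ^ 2 ≤ τ ^ 2 := by
    rw [div_le_iff₀ (by positivity)]
    nlinarith [mul_nonneg (sq_nonneg τ) (sq_nonneg M), hA2]
  nlinarith

lemma sqrt_upper {M : ℝ} (hM : 0 < M) (s τ : ℝ) :
    Real.sqrt ((s + τ) ^ 2 + M ^ 2) ≤
      Real.sqrt (s ^ 2 + M ^ 2) + s / Real.sqrt (s ^ 2 + M ^ 2) * τ + τ ^ 2 / (2 * M) := by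
  have hA : 0 < Real.sqrt (s ^ 2 + M ^ 2) := Real.sqrt_pos.2 (by positivity)
  have hMA : M ≤ Real.sqrt (s ^ 2 + M ^ 2) := Real.le_sqrt_of_sq_le (by nlinarith [sq_nonneg s])
  set A := Real.sqrt (s ^ 2 + M ^ 2) with hAdef
  have hA2 : A ^ 2 = s ^ 2 + M ^ 2 := Real.sq_sqrt (by positivity)
  have h3 : τ ^ 2 / (2 * A) ≤ τ ^ 2 / (2 * M) := by
    apply div_le_div_of_nonneg_left (sq_nonneg _) (by positivity) (by linarith)
  refine le_trans ?_ (add_le_add_right h3 _)
  have h4 : A + s / A * τ + τ ^ 2 / (2 * A) = (2 * A ^ 2 + 2 * s * τ + τ ^ 2) / (2 * A) := by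
    field_simp
  rw [h4]
  have h5 : 0 ≤ (2 * A ^ 2 + 2 * s * τ + τ ^ 2) / (2 * A) := by
    apply div_nonneg _ (by positivity)
    nlinarith [sq_nonneg (s + τ), sq_nonneg M, sq_nonneg s]
  apply Real.sqrt_le_iff.2 ⟨h5, ?_⟩
  rw [div_pow, le_div_iff₀ (by positivity)]
  nlinarith [sq_nonneg (2 * s * τ + τ ^ 2), hA2]

end basic

end Pool.Agent.Lib.MP_b1a3a4_al.MVS.HO
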