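import Pool.Agent.Lib.MP_b1a3a4_al.MVS.HO.Defs
import Pool.Agent.Lib.MP_b1a3a4_al.MVS.HO.Core2

/-!
# Project MVS, part II: statements of all modules

The proofs are in `Paper.md`, section 10 (numbers in the comments).
-/

set_option linter.all false

namespace Pool.Agent.Lib.MP_b1a3a4_al.MVS.HO

/-! ## A. Coarse topology of groups -/

/-- CARR (10.2): finite carriers -/
def CarrStatement : Prop :=
  ∀ (G : Type) [Group G] (E Z : Set G) (g : G) (w w' : List G), SameHol E Z g w w' →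
    ∃ F : Set G, F.Finite ∧ F ⊆ Z ∧ SameHol E F g w w'

/-- FPR (10.3): finitely presented groups -/
def FprStatement : Prop :=
  ∀ (G : Type) [Group G], Group.IsFinitelyPresented G → FPres G

/-- SCALE (10.4) -/
def ScaleStatement : Prop :=
  ∀ (G : Type) [Group G], FPres G → ∀ B : Set G, B.Finite → ∃ E, B ⊆ E ∧ GoodScale E

/-- EXT (10.5): scale extension -/
def ExtStatement : Prop :=
  ∀ (G : Type) [Group G] (E : Set G), GoodScale E → ∀ E₁ : Set G, E₁.Finite →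
    ∃ F : Set G, F.Finite ∧ (1 : G) ∈ F ∧ ∀ (Z : Set G) (H : Type) [Group H] (c : G → G → H),
      Cocyc E Z c → ∃ c₁ : G → G → H, Cocyc E₁ {g | ∀ f ∈ F, g * f ∈ Z} c₁ ∧
        ∀ g h, (∀ f ∈ F, g * f ∈ Z) → (∀ f ∈ F, h * f ∈ Z) → g⁻¹ * h ∈ E → c₁ g h = c g h

/-- SHX (10.5): change of scale for `SameHol` -/
def ShxStatement : Prop :=
  ∀ (G : Type) [Group G] (E : Set G), GoodScale E → ∀ (χ : Chr G) (E' : Set G), E'.Finite →
    ∃ d : ℝ, 0 ≤ d ∧ ∀ (h : ℝ) (u : G) (w w' : List G), InPath E (up (val χ) h) u w →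
      InPath E (up (val χ) h) u w' → SameHol E' (up (val χ) h) u w w' →
      SameHol E (up (val χ) (h - d)) u w w'

/-- HIGH (10.6): fixed loops at high vertices -/
def HighStatement : Prop :=
  ∀ (G : Type) [Group G] (E : Set G), GoodScale E → ∀ (χ : Chr G) (L : Set (List G × List G)),
    L.Finite → (∀ ℓ ∈ L, (∀ x ∈ ℓ.1, x ∈ E) ∧ (∀ x ∈ ℓ.2, x ∈ E) ∧ ℓ.1.prod = ℓ.2.prod) →
    ∃ T : ℝ, 0 ≤ T ∧ ∀ ℓ ∈ L, ∀ (h : ℝ) (u : G), h + T ≤ val χ u →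
      SameHol E (up (val χ) h) u ℓ.1 ℓ.2

/-- RETR (10.7): coarse retracts -/
def RetrStatement : Prop :=
  ∀ (G G' : Type) [Group G] [Group G'] (Y : Set G) (Y' : Set G') (ρ : G → G') (ι : G' → G),
    (∀ y ∈ Y, ρ y ∈ Y') → (∀ y ∈ Y', ι y ∈ Y) →
    (∀ E : Set G, E.Finite → ∃ F : Set G', F.Finite ∧
      ∀ y ∈ Y, ∀ z ∈ Y, y⁻¹ * z ∈ E → (ρ y)⁻¹ * ρ z ∈ F) →
    (∀ E : Set G', E.Finite → ∃ F : Set G, F.Finite ∧
      ∀ y ∈ Y', ∀ z ∈ Y', y⁻¹ * z ∈ E → (ι y)⁻¹ * ι z ∈ F) →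
    (∃ B : Set G', B.Finite ∧ ∀ y ∈ Y', y⁻¹ * ρ (ι y) ∈ B) →
    (CSC Y → CSC Y') ∧ (CC Y → CC Y')

/-- FININD (10.8): normal subgroups of finite index -/
def FinIndStatement : Prop :=
  ∀ (K S Q : Type) [Group K] [Group S] [Group Q] [Finite Q] (j : K →* S) (π : S →* Q), SES j π →
    (FPres K ↔ FPres S) ∧
    ∀ χ : Chr S, (∃ κ, 0 < val χ (j κ)) → (Sig2 (χ.res j) ↔ Sig2 χ)

/-- LAG (10.9) -/
def LagStatement : Prop :=
  ∀ (G : Type) [Group G] (χ : Chr G), (∃ b, 0 < val χ b) →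
    ((∀ E : Set G, E.Finite → ∃ (E' : Set G) (D : ℝ), E'.Finite ∧
      ∀ (H : Type) [Group H] (c : G → G → H), Cocyc E' (up (val χ) 0) c →
        Cob E (up (val χ) D) c) → CSC (up (val χ) 0)) ∧
    ((∃ (E : Set G) (D : ℝ), E.Finite ∧ ∀ g ∈ up (val χ) D, ∀ h ∈ up (val χ) D,
      Conn E (up (val χ) 0) g h) → CC (up (val χ) 0))

/-- HALF (10.10) -/
def HalfStatement : Prop :=
  ∀ (G : Type) [Group G] (χ : Chr G) (E : Set G), GoodScale E → (∃ b, 0 < val χ b) → Sig2 χ →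
    ∃ D : ℝ, HS χ E D

/-- HALFC (10.10) -/
def HalfcStatement : Prop :=
  ∀ (G : Type) [Group G] (χ : Chr G), (∃ b, 0 < val χ b) →
    (∀ B : Set G, B.Finite → ∃ E, B ⊆ E ∧ GoodScale E ∧ ∃ D : ℝ, HS χ E D) → Sig2 χ

/-- FPUP (10.11): cyclic extensions -/
def FpUpStatement : Prop :=
  ∀ (S S' : Type) [Group S] [Group S'] (j : S →* S') (ψ : S' →* Multiplicative ℤ), SES j ψ →
    FPres S → FPres S'

/-! ## B. Extension of cocycles -/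

/-- GEXT (10.12) -/
def GextStatement : Prop :=
  ∀ (G : Type) [Group G] (E : Set G), GoodScale E → ∀ (g : G → ℝ) (b : G → G) (wb : G → List G)
    (p : G → G → List G) (δ C h₀ : ℝ), 0 < δ → 0 ≤ C →
    (∀ v, (wb v).prod = b v ∧ InPath E (up g (g v - C)) v (wb v)) →
    (∀ v, ∀ x ∈ E, (p v x).prod = (b v)⁻¹ * x * b (v * x) ∧
      InPath E (up g (min h₀ (min (g v) (g (v * x)) + δ))) (v * b v) (p v x)) →
    (∀ v, ∀ x ∈ E, ∀ y ∈ E, x * y ∈ E →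
      SameHol E (up g (min h₀ (min (min (g v) (g (v * x))) (g (v * (x * y))) + δ))) (v * b v)
        (p v x ++ p (v * x) y) (p v (x * y))) →
    (∀ v, ∀ x ∈ E, SameHol E (up g (g v - C)) v (wb v ++ p v x) (x :: wb (v * x))) →
    ∀ h ≤ h₀, ∀ (H : Type) [Group H] (c : G → G → H), Cocyc E (up g h) c → Cob E (up g (h + C)) c

/-- P2H (10.13): push data give half-space statements, uniformly for nearby directions -/
def P2hStatement : Prop :=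
  ∀ (G : Type) [Group G] (E : Set G), GoodScale E → ∀ (χ ψ : Chr G), Pushes E χ →
    ∃ ε D : ℝ, 0 < ε ∧ ∀ lam : ℝ, |lam| < ε → HS (χ + lam • ψ) E D

/-- H2P (10.14) -/
def H2pStatement : Prop :=
  ∀ (G : Type) [Group G] (E : Set G), GoodScale E → ∀ (χ : Chr G) (D : ℝ), (∃ b, 0 < val χ b) →
    HS χ E D → Pushes E χ

/-- LB (10.15): uniform lag on compact sets of directions -/
def LbStatement : Prop :=
  ∀ (G : Type) [Group G] (E : Set G), GoodScale E → ∀ (χ ψ : Chr G),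
    (∃ b, val ψ b = 0 ∧ 0 < val χ b) → ∀ c₁ : ℝ,
    (∀ lam : ℝ, |lam| ≤ c₁ → ∃ D : ℝ, HS (χ + lam • ψ) E D) →
    ∃ D : ℝ, 0 ≤ D ∧ ∀ lam : ℝ, |lam| ≤ c₁ → HS (χ + lam • ψ) E D

/-- the curved height function -/
noncomputable def curv {G : Type} [Group G] (χ ψ : Chr G) (c₁ M : ℝ) (v : G) : ℝ :=
  val χ v - c₁ * Real.sqrt (val ψ v ^ 2 + M ^ 2)

/-- CURV1 (10.16) -/
def Curv1Statement : Prop :=
  ∀ (G : Type) [Group G] (E : Set G), GoodScale E → ∀ (χ ψ : Chr G) (c₁ D : ℝ), 0 < c₁ → 0 ≤ D →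
    (∀ lam : ℝ, |lam| ≤ c₁ → HS (χ + lam • ψ) E D) → ∀ B : Set G, B.Finite →
    ∃ (P : Set (List G)) (M₀ : ℝ), P.Finite ∧ 0 < M₀ ∧ ∀ M : ℝ, M₀ ≤ M → ∀ v : G,
      ∀ u ∈ B, ∀ u' ∈ B, ∃ p ∈ P, u * p.prod = u' ∧
        InPath E (up (curv χ ψ c₁ M)
          (min (curv χ ψ c₁ M (v * u)) (curv χ ψ c₁ M (v * u')) - D - 1)) (v * u) p

/-- CURV2 (10.17) -/
def Curv2Statement : Prop :=
  ∀ (G : Type) [Group G] (E : Set G), GoodScale E → ∀ (χ ψ : Chr G) (c₁ D : ℝ), 0 < c₁ → 0 ≤ D →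
    (∀ lam : ℝ, |lam| ≤ c₁ → HS (χ + lam • ψ) E D) →
    ∀ L : Set (G × List G × List G), L.Finite →
    (∀ ℓ ∈ L, (∀ x ∈ ℓ.2.1, x ∈ E) ∧ (∀ x ∈ ℓ.2.2, x ∈ E) ∧ ℓ.2.1.prod = ℓ.2.2.prod) →
    ∃ M₀ : ℝ, 0 < M₀ ∧ ∀ M : ℝ, M₀ ≤ M → ∀ v : G, ∀ ℓ ∈ L, ∀ a : ℝ,
      InPath E (up (curv χ ψ c₁ M) a) (v * ℓ.1) ℓ.2.1 →
      InPath E (up (curv χ ψ c₁ M) a) (v * ℓ.1) ℓ.2.2 →
      SameHol E (up (curv χ ψ c₁ M) (a - D - 1)) (v * ℓ.1) ℓ.2.1 ℓ.2.2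

/-- CURVEXT (10.18) -/
def CurvExtStatement : Prop :=
  ∀ (G : Type) [Group G] (E : Set G), GoodScale E → ∀ (χ ψ : Chr G) (c₁ D : ℝ), 0 < c₁ → 0 ≤ D →
    (∃ b, val ψ b = 0 ∧ 0 < val χ b) → (∀ lam : ℝ, |lam| ≤ c₁ → HS (χ + lam • ψ) E D) →
    ∃ M C : ℝ, 0 < M ∧ 0 ≤ C ∧ ∀ (h : ℝ) (H : Type) [Group H] (c : G → G → H),
      Cocyc E (up (curv χ ψ c₁ M) h) c → Cob E (up (curv χ ψ c₁ M) (h + C)) c

/-- substitution of words for letters -/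
def subst {G : Type} [Group G] (θ : G → List G) (w : List G) : List G := w.flatMap θ

/-- THETA (10.19): iterated substitution -/
def ThetaStatement : Prop :=
  ∀ (G : Type) [Group G] (E : Set G), GoodScale E → ∀ (χ : Chr G) (σ : G →* G),
    (∀ g, val χ (σ g) = val χ g) → ∀ θ : G → List G,
    (∀ e ∈ E, (θ e).prod = σ e ∧ ∀ x ∈ θ e, x ∈ E) →
    ∃ C : ℝ, 0 ≤ C ∧ ∀ (A : ℝ) (u : G) (w w' : List G), InPath E (up (val χ) A) u w →
      InPath E (up (val χ) A) u w' → SameHol E (up (val χ) A) u w w' → ∀ n : ℕ,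
      InPath E (up (val χ) (A - n * C)) (σ^[n] u) ((subst θ)^[n] w) ∧
      InPath E (up (val χ) (A - n * C)) (σ^[n] u) ((subst θ)^[n] w') ∧
      SameHol E (up (val χ) (A - n * C)) (σ^[n] u) ((subst θ)^[n] w) ((subst θ)^[n] w')

/-- CONE (10.20) -/
def ConeStatement : Prop :=
  ∀ (S S' : Type) [Group S] [Group S'] (j : S →* S') (ψ : S' →* Multiplicative ℤ), SES j ψ →
    ∀ (χ : Chr S') (t : S'), ψ t = Multiplicative.ofAdd 1 → val χ t = 0 →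
    ∀ (E : Set S), GoodScale E → ∀ (E' : Set S'), E'.Finite →
    ∃ d : ℝ, 0 ≤ d ∧ ∀ (H : Type) [Group H] (c : S → S → H), Cocyc E (up (val (χ.res j)) 0) c →
      ∃ c' : S' → S' → H, Cocyc E' {g | d * (|val (intChr ψ) g| + 1) ≤ val χ g} c' ∧
        ∀ s s' : S, s⁻¹ * s' ∈ E → j (s⁻¹ * s') ∈ E' → d ≤ val χ (j s) → d ≤ val χ (j s') →
          c' (j s) (j s') = c s s'

/-- HEMI2 (10.21) -/
def Hemi2Statement : Prop :=
  ∀ (S S' : Type) [Group S] [Group S'] (j : S →* S') (ψ : S' →* Multiplicative ℤ), SES j ψ →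
    FPres S → FPres S' → ∀ χ : Chr S', (∃ s, 0 < val χ (j s)) →
    (∀ lam : ℝ, Sig2 (χ + lam • intChr ψ)) → CSC (up (val (χ.res j)) 0)

/-! ## C. Case A -/

/-- KPATH (10.22) -/
def KpathStatement : Prop :=
  ∀ (K G : Type) [Group K] [Group G] (j : K →* G), Function.Injective j → ∀ χ : Chr G,
    CC (up (val (χ.res j)) 0) →
    ∃ EK : Set G, EK.Finite ∧ (∀ e ∈ EK, e ∈ j.range) ∧ (∀ e ∈ EK, e⁻¹ ∈ EK) ∧
      ∀ κ ∈ j.range, ∃ w : List G, w.prod = κ ∧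
        InPath EK (up (val χ) (min 0 (val χ κ))) 1 w

/-- KFILL (10.23) -/
def KfillStatement : Prop :=
  ∀ (G : Type) [Group G], FPres G → ∀ (χ : Chr G) (a : G), 0 < val χ a →
    ∀ E₁ : Set G, E₁.Finite → (∀ e ∈ E₁, a * e = e * a) →
    ∃ E₂ : Set G, E₂.Finite ∧ ∀ (h : ℝ) (u : G) (w w' : List G), w.prod = w'.prod →
      InPath E₁ (up (val χ) h) u w → InPath E₁ (up (val χ) h) u w' →
      SameHol E₂ (up (val χ) h) u w w'

/-- TTWO (10.24) -/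
def TtwoStatement : Prop :=
  ∀ (G : Type) [Group G], FPres G → ∀ (χ : Chr G) (K : Subgroup G) (a : G),
    (∀ κ ∈ K, a * κ = κ * a) → 0 < val χ a →
    ∀ (E : Set G), GoodScale E → ∀ EK : Set G, EK ⊆ E → (∀ e ∈ EK, e ∈ K) →
    (∀ κ ∈ K, ∃ w : List G, w.prod = κ ∧ InPath EK (up (val χ) (min 0 (val χ κ))) 1 w) →
    ∀ E₁ : Set G, E₁.Finite → EK ⊆ E₁ → (∀ e ∈ E₁, e ∈ K) → (∀ e ∈ E₁, e⁻¹ ∈ E₁) →
    ∃ E₂ : Set G, E₂.Finite ∧ ∀ W : Set (List G), W.Finite →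
      (∀ ω ∈ W, (∀ x ∈ ω, x ∈ E) ∧ ∀ κ ∈ K, ω.prod * κ = κ * ω.prod) →
      ∃ T : ℝ, ∀ (h : ℝ) (u : G) (k k' : List G), ∀ ω ∈ W, ∀ ω' ∈ W, ω.prod = ω'.prod →
        InPath E₁ (up (val χ) 0) 1 k → InPath E₁ (up (val χ) 0) 1 k' →
        T ≤ val χ k.prod → T ≤ val χ k'.prod → h ≤ val χ u → h ≤ val χ (u * ω.prod) →
        SameHol E₂ (up (val χ) h) u (k ++ ω ++ rv k) (k' ++ ω' ++ rv k')

/-- conjugation of all letters of a word by `y⁻¹` -/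
def cj {G : Type} [Group G] (y : G) (w : List G) : List G := w.map (fun x => y⁻¹ * x * y)

/-- TONE (10.25) -/
def ToneStatement : Prop :=
  ∀ (G : Type) [Group G] (χ : Chr G) (E : Set G), GoodScale E →
    ∀ E₁ : Set G, E₁.Finite → (∀ e ∈ E₁, e⁻¹ ∈ E₁) →
    ∃ E₂ : Set G, E₂.Finite ∧ ∀ W : Set (List G), W.Finite → (∀ ω ∈ W, ∀ x ∈ ω, x ∈ E) →
      ∃ T : ℝ, ∀ (h : ℝ) (u : G) (k : List G), ∀ ω ∈ W, ∀ ω' ∈ W, ∀ y ∈ E,
        ω'.prod = y⁻¹ * ω.prod * y → (∀ e ∈ E₁, ω.prod * e = e * ω.prod) →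
        InPath E₁ (up (val χ) 0) 1 k → T ≤ val χ k.prod → h ≤ val χ u → h ≤ val χ (u * y) →
        h ≤ val χ (u * ω.prod) → h ≤ val χ (u * ω.prod * y) →
        SameHol E₂ (up (val χ) h) u (k ++ ω ++ rv k ++ [y])
          ([y] ++ cj y k ++ ω' ++ rv (cj y k))

/-- LEMX (10.26) -/
def LemxStatement : Prop :=
  ∀ (K G : Type) [Group K] [Group G] (j : K →* G), Function.Injective j → j.range.Normal →
    FPres G → ∀ (χ : Chr G) (a : G), (∀ κ, a * j κ = j κ * a) → 0 < val χ a →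
    (∃ κ, 0 < val χ (j κ)) → CC (up (val (χ.res j)) 0) → ∀ B : Set G, B.Finite →
    ∃ E, B ⊆ E ∧ GoodScale E ∧ Pushes E χ

/-- CASEX (10.27) -/
def CasexStatement : Prop :=
  ∀ (K G : Type) [Group K] [Group G] (j : K →* G), Function.Injective j → j.range.Normal →
    FPres G → ∀ (χ : Chr G) (a : G), (∀ κ, a * j κ = j κ * a) → val χ a ≠ 0 →
    (∃ κ, val χ (j κ) ≠ 0) → CC (up (val (χ.res j)) 0) → Sig2 χ

/-! ## D. The induction for `n = 2` -/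

/-- SIG1 (10.28) -/
def Sig1Statement : Prop :=
  ∀ (k G : Type) [CommRing k] [Nontrivial k] [Group G] (χ : Chr G), FPn k (posMon χ) 1 →
    CC (up (val χ) 0)

/-- SIGP (10.28) -/
def SigpStatement : Prop :=
  ∀ (I : Type) [Fintype I] [DecidableEq I] (L : I → Type) [∀ i, Group (L i)] (U : Finset I)
    (S : Subgroup (∀ i, L i)), Setup ℤ 1 U S → ∀ χ : Chr S, CondB 1 U S χ → CC (up (val χ) 0)

/-- CASEA2 (10.29) -/
def CaseA2Statement : Prop :=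
  ∀ (I : Type) [Fintype I] [DecidableEq I] (L : I → Type) [∀ i, Group (L i)] (U : Finset I)
    (S : Subgroup (∀ i, L i)), Setup ℤ 2 U S → FPres S → ∀ χ : Chr S, CondB 2 U S χ →
    (∃ i ∈ U, ∃ (x : L i) (h : Pi.mulSingle i x ∈ S), val χ ⟨_, h⟩ ≠ 0) → Sig2 χ

/-- BASE2 (10.30) -/
def Base2Statement : Prop :=
  ∀ (I : Type) [Fintype I] [DecidableEq I] (L : I → Type) [∀ i, Group (L i)] (U : Finset I)
    (S : Subgroup (∀ i, L i)), Setup ℤ 2 U S → piS U S ≤ S → FPres S → ∀ χ : Chr S,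
    CondB 2 U S χ → Sig2 χ

/-- STEP2 (10.31) -/
def Step2Statement : Prop :=
  ∀ (I : Type) [Fintype I] [DecidableEq I] (L : I → Type) [∀ i, Group (L i)] (U : Finset I)
    (S : Subgroup (∀ i, L i)), Setup ℤ 2 U S → FPres S → ∀ i ∈ U, ∀ t₀ ∈ pr S i,
    (∀ x ∈ pr S i, t₀ * x * t₀⁻¹ * x⁻¹ ∈ nr S i) →
    FPres (S ⊔ Subgroup.zpowers (Pi.mulSingle i t₀ : ∀ i, L i) : Subgroup (∀ i, L i)) ∧
    ((∀ χ' : Chr (S ⊔ Subgroup.zpowers (Pi.mulSingle i t₀ : ∀ i, L i) : Subgroup (∀ i, L i)),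
      CondB 2 U (S ⊔ Subgroup.zpowers (Pi.mulSingle i t₀ : ∀ i, L i)) χ' → Sig2 χ') →
    ∀ χ : Chr S, CondB 2 U S χ → Sig2 χ)

/-- Q2 (10.32) -/
def Q2Statement : Prop :=
  ∀ (I : Type) [Fintype I] [DecidableEq I] (L : I → Type) [∀ i, Group (L i)] (U : Finset I)
    (S : Subgroup (∀ i, L i)), Setup ℤ 2 U S → FPres S → ∀ χ : Chr S, CondB 2 U S χ → Sig2 χ

/-- TOPHO (10.33) -/
def TopHoStatement : Prop :=
  ∀ n : ℕ, 2 ≤ n → ∀ (I : Type) [Fintype I] [DecidableEq I] (L : I → Type) [∀ i, Group (L i)]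
    (S : Subgroup (∀ i, L i)), n ≤ Fintype.card I → FPres S → FPn ℤ S n →
    (∀ J : Finset I, J.card = n → (S.map (projJ L J)).FiniteIndex) →
    ∀ χ : Chr S, χ ≠ 0 → CharCond n L S χ → Sig2 χ

/-! ## E. The Cayley complex -/

/-- holonomy of a labelling of the edges of the Cayley graph -/
def lhol {G : Type} [Group G] {r : ℕ} (φ : FreeGroup (Fin r) →* G) {H : Type} [Group H]
    (c : G → Fin r × Bool → H) : G → List (Fin r × Bool) → H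
  | _, [] => 1
  | g, x :: w => c g x * lhol φ c (g * wval φ [x]) w

/-- UNIV (10.34): the universal labelling -/
def UnivStatement : Prop :=
  ∀ (G : Type) [Group G] (r : ℕ) (φ : FreeGroup (Fin r) →* G) (R : Set (FreeGroup (Fin r)))
    (Z : Set G) (g : G), (∀ ρ ∈ R, φ ρ = 1) →
    ∃ (H : Type) (_ : Group H) (c : G → Fin r × Bool → H),
      (∀ v x, v ∈ Z → v * wval φ [x] ∈ Z → c v x * c (v * wval φ [x]) (x.1, !x.2) = 1) ∧
      (∀ v, ∀ ρ ∈ R, PathIn φ Z v ρ.toWord → lhol φ c v ρ.toWord = 1) ∧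
      ∀ w, wval φ w = 1 → PathIn φ Z g w → lhol φ c g w = 1 → Homotopic φ R Z g w []

/-- CAYFILL (10.35): relations of the group are filled in finite regions -/
def CayFillStatement : Prop :=
  ∀ (G : Type) [Group G] (r : ℕ) (φ : FreeGroup (Fin r) →* G) (R : Set (FreeGroup (Fin r))),
    φ.ker = Subgroup.normalClosure R → ∀ w : List (Fin r × Bool), wval φ w = 1 →
    ∃ F : Set G, F.Finite ∧ ∀ (Z : Set G) (v : G), (∀ f ∈ F, v * f ∈ Z) →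
      ∀ (H : Type) [Group H] (c : G → Fin r × Bool → H),
      (∀ v x, v ∈ Z → v * wval φ [x] ∈ Z → c v x * c (v * wval φ [x]) (x.1, !x.2) = 1) →
      (∀ v, ∀ ρ ∈ R, PathIn φ Z v ρ.toWord → lhol φ c v ρ.toWord = 1) → lhol φ c v w = 1

/-- CONV (10.36) -/
def ConvStatement : Prop :=
  ∀ (G : Type) [Group G] (χ : G →* Multiplicative ℝ), χ ≠ 1 → FPres G →
    Sig2 (MonoidHom.toAdditiveLeft χ : Chr G) → InSigma2 χ

/-- FINALHO (10.37) -/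
def FinalHoStatement : Prop :=
  ∀ (m n : ℕ), 2 ≤ n → n ≤ m → ∀ (L : Fin m → Type) [∀ i, Group (L i)]
    (S : Subgroup (∀ i, L i)), Group.IsFinitelyPresented S → FPn ℤ S n →
    ∀ I : Finset (Fin m), InjOn S I → VirtSurj S I n → ∀ χ : S →* Multiplicative ℝ, χ ≠ 1 →
    SameProj S χ n → InSigma2 χ

end Pool.Agent.Lib.MP_b1a3a4_al.MVS.HO
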