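import Pool.Agent.Lib.MP_b1a3a4_al.MVS.Main
import Pool.Agent.Lib.MP_b1a3a4_al.MVS.HO.H19.Curvext
import Pool.Agent.Lib.MP_b1a3a4_al.MVS.HO.H27.Base2
import Pool.Agent.Lib.MP_b1a3a4_al.MVS.HO.H27.CaseA2
import Pool.Agent.Lib.MP_b1a3a4_al.MVS.HO.H27.Casex
import Pool.Agent.Lib.MP_b1a3a4_al.MVS.HO.H27.Q2
import Pool.Agent.Lib.MP_b1a3a4_al.MVS.HO.H27.Sigp
import Pool.Agent.Lib.MP_b1a3a4_al.MVS.HO.H27.TopHo
import Pool.Agent.Lib.MP_b1a3a4_al.MVS.HO.H29.Kfill
import Pool.Agent.Lib.MP_b1a3a4_al.MVS.HO.H29.Kpath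
import Pool.Agent.Lib.MP_b1a3a4_al.MVS.HO.H29.Tone
import Pool.Agent.Lib.MP_b1a3a4_al.MVS.HO.H29.Ttwo
import Pool.Agent.Lib.MP_b1a3a4_al.MVS.HO.H31.Sig1
import Pool.Agent.Lib.MP_b1a3a4_al.MVS.HO.H36.Cone
import Pool.Agent.Lib.MP_b1a3a4_al.MVS.HO.H39.Univ
import Pool.Agent.Lib.MP_b1a3a4_al.MVS.HO.H43.Hemi2
import Pool.Agent.Lib.MP_b1a3a4_al.MVS.HO.H45.FinalHo
import Pool.Agent.Lib.MP_b1a3a4_al.MVS.HO.H45.Lemx
import Pool.Agent.Lib.MP_b1a3a4_al.MVS.HO.H45.Step2
import Pool.Agent.Lib.MP_b1a3a4_al.MVS.HO.H48.Half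
import Pool.Agent.Lib.MP_b1a3a4_al.MVS.HO.H45.Retr
import Pool.Agent.Lib.MP_b1a3a4_al.MVS.HO.H45.FinInd
import Pool.Agent.Lib.MP_b1a3a4_al.MVS.HO.H45.Lag
import Pool.Agent.Lib.MP_b1a3a4_al.MVS.HO.H59.Theta
import Pool.Agent.Lib.MP_b1a3a4_al.MVS.HO.H65.Carr
import Pool.Agent.Lib.MP_b1a3a4_al.MVS.HO.H65.Gext
import Pool.Agent.Lib.MP_b1a3a4_al.MVS.HO.H65.H2p
import Pool.Agent.Lib.MP_b1a3a4_al.MVS.HO.H65.P2h
import Pool.Agent.Lib.MP_b1a3a4_al.MVS.HO.H68.Ext
import Pool.Agent.Lib.MP_b1a3a4_al.MVS.HO.H68.Fpr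
import Pool.Agent.Lib.MP_b1a3a4_al.MVS.HO.H68.Halfc
import Pool.Agent.Lib.MP_b1a3a4_al.MVS.HO.H68.High
import Pool.Agent.Lib.MP_b1a3a4_al.MVS.HO.H68.Scale
import Pool.Agent.Lib.MP_b1a3a4_al.MVS.HO.H68.Shx
import Pool.Agent.Lib.MP_b1a3a4_al.MVS.HO.H82.CayFill
import Pool.Agent.Lib.MP_b1a3a4_al.MVS.HO.H82.Conv
import Pool.Agent.Lib.MP_b1a3a4_al.MVS.HO.H84.Fpup
import Pool.Agent.Lib.MP_b1a3a4_al.MVS.HO.H92.Curv

/-!
# Project MVS, part II: assembly
-/

set_option linter.all false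

namespace Pool.Agent.Lib.MP_b1a3a4_al.MVS.HO

theorem carrT : CarrStatement := H65.carr
theorem fprT : FprStatement := H68.fpr
theorem scaleT : ScaleStatement := H68.scale
theorem extT : ExtStatement := H68.ext carrT
theorem shxT : ShxStatement := H68.shx extT
theorem highT : HighStatement := H68.high carrT
theorem retrT : RetrStatement := H45.retr
theorem finindT : FinIndStatement := H45.finind retrT
theorem lagT : LagStatement := H45.lag
theorem halfT : HalfStatement := H48.half extT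
theorem halfcT : HalfcStatement := H68.halfc lagT
theorem fpupT : FpUpStatement := H84.fpup
theorem gextT : GextStatement := H65.gext
theorem p2hT : P2hStatement := H65.p2h gextT carrT
theorem h2pT : H2pStatement := H65.h2p carrT
theorem lbT : LbStatement := H65.lb p2hT h2pT
theorem curv1T : Curv1Statement := H92.curv1
theorem curv2T : Curv2Statement := H92.curv2 carrT
theorem curvextT : CurvExtStatement := H19.curvext curv1T curv2T gextT carrT
theorem thetaT : ThetaStatement := H59.theta carrT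
theorem coneT : ConeStatement := H36.cone thetaT carrT
theorem hemi2T : Hemi2Statement := H43.hemi2 scaleT halfT lbT curvextT coneT lagT
theorem kpathT : KpathStatement := H29.kpath
theorem kfillT : KfillStatement := H29.kfill scaleT highT
theorem ttwoT : TtwoStatement := H29.ttwo kfillT highT
theorem toneT : ToneStatement := H29.tone highT
theorem lemxT : LemxStatement := H45.lemx scaleT kpathT ttwoT toneT shxT highT carrT
theorem casexT : CasexStatement := H27.casex lemxT p2hT halfcT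
theorem sig1T : Sig1Statement := H31.sig1
theorem sigpT : SigpStatement := H27.sigp sig1T pnT monoidT fpresT
theorem casea2T : CaseA2Statement := H27.casea2 casexT sigpT fpfiT fpresT
theorem base2T : Base2Statement := H27.base2 casea2T
theorem step2T : Step2Statement := H45.step2 fpupT finindT hemi2T sigpT casea2T setupupT fpresT
theorem q2T : Q2Statement := H27.q2 base2T step2T chainT setupupT fpfgT
theorem tophoT : TopHoStatement := H27.topho q2T finindT topgrpT topfpT fpfiT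
theorem univT : UnivStatement := H39.univ
theorem cayfillT : CayFillStatement := H82.cayfill
theorem convT : ConvStatement := H82.conv scaleT halfT univT cayfillT
theorem finalhoT : FinalHoStatement := H45.finalho tophoT convT fprT finindT fpisoT

end Pool.Agent.Lib.MP_b1a3a4_al.MVS.HO
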